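import Pool.Agent.J4H23.GS.E5b

/-!
# Project GS (helper38, MP_bc6037_nt): (E5), the lower bound over the shifts
-/

set_option autoImplicit false

open MeasureTheory Set Filter Polynomial Topology
open scoped ComplexConjugate

namespace Pool.Agent.J4H23.GS

open Pool.Agent.J4H38.GS Pool.Agent.J4H13.GS

noncomputable section

attribute [local irreducible] WW VV ee

lemma SS_meas (σ : ℝ) : Measurable (fun p : ℝ × ℝ => SS σ p.1 p.2) := by
  have h0 : Measurable (Function.uncurry (fun (p : ℝ × ℝ) (a : ℝ) => WW σ a p.1 * conj (WW σ a p.2))) := by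
    have hm1 : Measurable (fun q : (ℝ × ℝ) × ℝ => (q.2, q.1.1)) :=
      measurable_snd.prodMk (measurable_fst.comp measurable_fst)
    have hm2 : Measurable (fun q : (ℝ × ℝ) × ℝ => (q.2, q.1.2)) :=
      measurable_snd.prodMk (measurable_snd.comp measurable_fst)
    have h1 := (WW_meas σ).comp hm1
    have h2 := Complex.continuous_conj.measurable.comp ((WW_meas σ).comp hm2)
    have h3 := h1.mul h2
    exact h3
  have h4 := (h0.stronglyMeasurable.integral_prod_right (ν := volume.restrict (Ico (0 : ℝ) 1))).measurable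
  simp only [WW_WW] at h4
  exact h4

lemma SS_le {σ c T t t' : ℝ} (hσ : 0 < σ) (hc : 0 < c) (hT : 1 ≤ T)
    (hcc : ∀ t, T ≤ t → c ≤ ‖cc (-1) (ln σ t)‖) (ht : t ∈ Ioc T (2 * T)) (ht' : t' ∈ Ioc T (2 * T)) :
    ‖SS σ t t'‖ ≤ (((σ + 2 * T) / σ + 1) / c) * (((σ + 2 * T) / σ + 1) / c) := by
  have hB0 : 0 ≤ ((σ + 2 * T) / σ + 1) / c := by positivity
  rw [← WW_WW]
  have h := norm_setIntegral_le_of_norm_le_const (μ := (volume : Measure ℝ)) (s := Ico (0 : ℝ) 1)
    (f := fun a => WW σ a t * conj (WW σ a t'))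
    (C := (((σ + 2 * T) / σ + 1) / c) * (((σ + 2 * T) / σ + 1) / c)) (by simp) (fun a ha => by
      rw [norm_mul, RCLike.norm_conj]
      exact mul_le_mul (WW_le hσ hc hT ha ht (hcc t ht.1.le)) (WW_le hσ hc hT ha ht' (hcc t' ht'.1.le))
        (norm_nonneg _) hB0)
  simpa using h

/-- the identity -/
lemma main_id (k : ℕ) {σ c T : ℝ} (hσ : 0 < σ) (hc : 0 < c) (hT : 1 ≤ T)
    (hcc : ∀ t, T ≤ t → c ≤ ‖cc (-1) (ln σ t)‖) :
    IntegrableOn (fun α => ‖∫ t in Ioc T (2 * T), GG k σ α t‖ ^ 2) (cube k) volume ∧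
    ((∫ α in cube k, ‖∫ t in Ioc T (2 * T), GG k σ α t‖ ^ 2 : ℝ) : ℂ) =
      (∫ t in T..(2 * T), ∫ t' in T..(2 * T), SS σ t t' ^ k) - (T : ℂ) ^ 2 := by
  have hB : ∀ α ∈ cube k, ∀ t ∈ Ioc T (2 * T), ‖GG k σ α t‖ ≤ (((σ + 2 * T) / σ + 1) / c) ^ k + 1 := by
    intro α hα t ht
    unfold GG
    refine (norm_sub_le _ _).trans (add_le_add ?_ ?_)
    · exact prodB (fun i => WW_le hσ hc hT (hα i (mem_univ i)) ht (hcc t ht.1.le))
    · refine (prodB (B := 1) (fun i => (ee_norm _).le)).trans ?_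
      simp
  obtain ⟨h1, h2⟩ := keyB (volume : Measure (Fin k → ℝ)) (cube_meas k) (cube_fin k) (D := Ioc T (2 * T))
    measurableSet_Ioc (by simp) (GG_meas k σ) hB
  refine ⟨h1, ?_⟩
  rw [h2]
  have e1 : ∫ y in Ioc T (2 * T), ∫ y' in Ioc T (2 * T), (∫ x in cube k, GG k σ x y * conj (GG k σ x y')) =
      ∫ y in Ioc T (2 * T), ∫ y' in Ioc T (2 * T), (SS σ y y' ^ k - 1) := by
    refine setIntegral_congr_fun measurableSet_Ioc (fun y hy => ?_)
    refine setIntegral_congr_fun measurableSet_Ioc (fun y' hy' => ?_)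
    exact GG_inner k hσ hc hT hcc hy hy'
  rw [e1, intervalIntegral.integral_of_le (by linarith)]
  simp only [intervalIntegral.integral_of_le (show T ≤ 2 * T by linarith)]
  have hI : Integrable (fun p : ℝ × ℝ => SS σ p.1 p.2 ^ k)
      ((volume.restrict (Ioc T (2 * T))).prod (volume.restrict (Ioc T (2 * T)))) := by
    rw [Measure.prod_restrict]
    refine intB (measurableSet_Ioc.prod measurableSet_Ioc) ?_ ((SS_meas σ).pow_const k)
      (B := ((((σ + 2 * T) / σ + 1) / c) * (((σ + 2 * T) / σ + 1) / c)) ^ k) ?_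
    · rw [Measure.prod_prod]
      exact ENNReal.mul_ne_top (by simp) (by simp)
    · rintro ⟨y, y'⟩ ⟨hy, hy'⟩
      rw [norm_pow]
      exact pow_le_pow_left₀ (norm_nonneg _) (SS_le hσ hc hT hcc hy hy') k
  have h3 := integral_prod _ hI
  have h4 := integral_prod _ (hI.sub (integrable_const (1 : ℂ)))
  simp only [Pi.sub_apply] at h4
  rw [← h4, integral_sub hI (integrable_const 1), h3]
  congr 1
  rw [integral_const, Complex.real_smul, mul_one]
  simp only [Measure.real, ← univ_prod_univ, Measure.prod_prod]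
  simp only [Measure.restrict_apply_univ, Real.volume_Ioc, ENNReal.toReal_mul]
  rw [ENNReal.toReal_ofReal (by linarith)]
  push_cast
  ring

/-- from the mean of the normalised product to the mean square -/
lemma low_id (k : ℕ) {σ c T : ℝ} (hσ : 0 < σ) (hσ2 : σ < 1 / 2) (hc : 0 < c) (hT : 1 ≤ T)
    (hcc : ∀ t, T ≤ t → c * t ^ (1 / 2 - σ) ≤ ‖cc (-1) (ln σ t)‖) {α : Fin k → ℝ} (hα : α ∈ cube k)
    (h : ‖∫ t in Ioc T (2 * T), GG k σ α t‖ ≤ T / 2) :
    c ^ (2 * k) / 4 * T ^ (1 + k * (1 - 2 * σ)) ≤ ∫ t in T..(2 * T), ‖∏ i, VV σ (α i) t‖ ^ 2 := by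
  have hT0 : 0 < T := by linarith
  have hcc1 : ∀ t, T ≤ t → c ≤ ‖cc (-1) (ln σ t)‖ := fun t ht => by
    refine le_trans ?_ (hcc t ht)
    have : 1 ≤ t ^ (1 / 2 - σ) := Real.one_le_rpow (hT.trans ht) (by linarith)
    nlinarith
  have hWt : Measurable (fun t => ∏ i, WW σ (α i) t) := by
    have h4 : Measurable (fun t : ℝ => (α, t)) := measurable_const.prodMk measurable_id
    have h5 := (WWp_meas k σ).comp h4
    simpa only [Function.comp_def] using h5
  have hVt : Measurable (fun t => ∏ i, VV σ (α i) t) := by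
    refine Finset.measurable_prod _ (fun i _ => ?_)
    have h4 : Measurable (fun t : ℝ => (α i, t)) := measurable_const.prodMk measurable_id
    have h5 := (VV_meas σ).comp h4
    simpa only [Function.comp_def, Function.uncurry] using h5
  have iW : IntegrableOn (fun t => ∏ i, WW σ (α i) t) (Ioc T (2 * T)) volume :=
    intB measurableSet_Ioc (by simp) hWt (B := (((σ + 2 * T) / σ + 1) / c) ^ k)
      (fun t ht => prodB (fun i => WW_le hσ hc hT (hα i (mem_univ i)) ht (hcc1 t ht.1.le)))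
  have iV : IntegrableOn (fun t => ‖∏ i, VV σ (α i) t‖ ^ 2) (Ioc T (2 * T)) volume := by
    refine Measure.integrableOn_of_bounded (M := (((σ + 2 * T) / σ + 1) ^ k) ^ 2) (by simp)
      (hVt.norm.pow_const 2).aestronglyMeasurable ?_
    refine (ae_restrict_iff' measurableSet_Ioc).2 (Eventually.of_forall fun t ht => ?_)
    rw [norm_pow, norm_norm]
    exact pow_le_pow_left₀ (norm_nonneg _) (prodB (fun i => VV_le hσ hT (hα i (mem_univ i)) ht)) 2
  -- the mean of the normalised product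
  have h1 : T / 2 ≤ ∫ t in Ioc T (2 * T), ‖∏ i, WW σ (α i) t‖ := by
    have h2 : ∫ t in Ioc T (2 * T), GG k σ α t =
        (∫ t in Ioc T (2 * T), ∏ i, WW σ (α i) t) - T * ∏ i, ee (α i) := by
      unfold GG
      rw [integral_sub iW (integrable_const _)]
      congr 1
      rw [setIntegral_const, Complex.real_smul]
      congr 1
      simp only [Measure.real, Real.volume_Ioc]
      rw [ENNReal.toReal_ofReal (by linarith)]
      push_cast
      ring
    have h3 : ‖(T : ℂ) * ∏ i, ee (α i)‖ = T := by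
      rw [norm_mul, norm_prod, Complex.norm_real, Real.norm_eq_abs, abs_of_pos hT0]
      simp [ee_norm]
    have h4 : ‖(T : ℂ) * ∏ i, ee (α i)‖ ≤ ‖∫ t in Ioc T (2 * T), ∏ i, WW σ (α i) t‖ +
        ‖∫ t in Ioc T (2 * T), GG k σ α t‖ := by
      have e : (T : ℂ) * ∏ i, ee (α i) = (∫ t in Ioc T (2 * T), ∏ i, WW σ (α i) t) -
          ∫ t in Ioc T (2 * T), GG k σ α t := by rw [h2]; ring
      rw [e]
      exact norm_sub_le _ _
    have h5 := norm_integral_le_integral_norm (μ := volume.restrict (Ioc T (2 * T)))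
      (fun t => ∏ i, WW σ (α i) t)
    linarith
  obtain ⟨A, hA⟩ : ∃ A, A = (c * T ^ (1 / 2 - σ)) ^ k := ⟨_, rfl⟩
  have hA0 : 0 < A := by rw [hA]; positivity
  -- pointwise
  have h6 : ∀ t ∈ Ioc T (2 * T), A ^ 2 * ‖∏ i, WW σ (α i) t‖ - A ^ 2 / 4 ≤ ‖∏ i, VV σ (α i) t‖ ^ 2 := by
    intro t ht
    have h7 : A * ‖∏ i, WW σ (α i) t‖ ≤ ‖∏ i, VV σ (α i) t‖ := by
      have h8 : ∀ i, c * T ^ (1 / 2 - σ) * ‖WW σ (α i) t‖ ≤ ‖VV σ (α i) t‖ := by
        intro i
        have h9 : c * T ^ (1 / 2 - σ) ≤ ‖cc (-1) (ln σ t)‖ := by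
          refine le_trans ?_ (hcc t ht.1.le)
          exact mul_le_mul_of_nonneg_left
            (Real.rpow_le_rpow hT0.le ht.1.le (by linarith)) hc.le
        have h10 : 0 < ‖cc (-1) (ln σ t)‖ := lt_of_lt_of_le hc (hcc1 t ht.1.le)
        have h11 : ‖WW σ (α i) t‖ = ‖VV σ (α i) t‖ / ‖cc (-1) (ln σ t)‖ := by
          rw [WW_def, norm_div]
        rw [h11, mul_div_assoc', div_le_iff₀ h10, mul_comm]
        exact mul_le_mul_of_nonneg_left h9 (norm_nonneg _)
      rw [hA, norm_prod, norm_prod]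
      have e : (c * T ^ (1 / 2 - σ)) ^ k * ∏ i, ‖WW σ (α i) t‖ =
          ∏ i, (c * T ^ (1 / 2 - σ) * ‖WW σ (α i) t‖) := by
        rw [Finset.prod_mul_distrib]
        simp
      rw [e]
      exact Finset.prod_le_prod (fun i _ => by positivity) (fun i _ => h8 i)
    nlinarith [sq_nonneg (‖∏ i, VV σ (α i) t‖ - A / 2), norm_nonneg (∏ i, VV σ (α i) t),
      norm_nonneg (∏ i, WW σ (α i) t)]
  have h12 : ∫ t in Ioc T (2 * T), (A ^ 2 * ‖∏ i, WW σ (α i) t‖ - A ^ 2 / 4) ≤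
      ∫ t in Ioc T (2 * T), ‖∏ i, VV σ (α i) t‖ ^ 2 :=
    setIntegral_mono_on ((iW.norm.const_mul _).sub (integrable_const _)) iV measurableSet_Ioc h6
  rw [integral_sub (iW.norm.const_mul _) (integrable_const _), integral_const_mul, setIntegral_const] at h12
  have h13 : (volume : Measure ℝ).real (Ioc T (2 * T)) = T := by
    simp only [Measure.real, Real.volume_Ioc]
    rw [ENNReal.toReal_ofReal (by linarith)]
    ring
  rw [h13, smul_eq_mul] at h12
  rw [intervalIntegral.integral_of_le (by linarith)]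
  have h14 : c ^ (2 * k) / 4 * T ^ (1 + k * (1 - 2 * σ)) = A ^ 2 * T / 4 := by
    have e2 : T ^ (1 + (k : ℝ) * (1 - 2 * σ)) = T * (T ^ (1 / 2 - σ)) ^ (k * 2) := by
      rw [Real.rpow_add hT0, Real.rpow_one, ← Real.rpow_natCast (T ^ (1 / 2 - σ)) (k * 2),
        ← Real.rpow_mul hT0.le]
      congr 2
      push_cast
      ring
    rw [e2, hA, ← pow_mul, mul_pow]
    ring
  rw [h14]
  nlinarith [mul_le_mul_of_nonneg_left h1 (sq_nonneg A)]

/-- **(E5)** -/
theorem t_E5 (_hKB : S_KB) (hE1 : S_E1) (_hE2 : S_E2) (hE4 : S_E4) : S_E5 := by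
  intro k σ hσ hσ2
  obtain ⟨c, t₀, hc, ht₀, hE⟩ := hE1 σ hσ hσ2
  refine ⟨c ^ (2 * k) / 4, by positivity, ?_⟩
  have hcc : ∀ t, t₀ ≤ t → c * t ^ (1 / 2 - σ) ≤ ‖cc (-1) (ln σ t)‖ := fun t ht => (hE t ht).2
  have hcc1 : ∀ t, t₀ ≤ t → c ≤ ‖cc (-1) (ln σ t)‖ := fun t ht => by
    refine le_trans ?_ (hcc t ht)
    have : 1 ≤ t ^ (1 / 2 - σ) := Real.one_le_rpow (ht₀.trans ht) (by linarith)
    nlinarith
  let Tn : ℕ → ℝ := fun n => n + t₀
  have hTn : ∀ n, t₀ ≤ Tn n := fun n => by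
    have : (0 : ℝ) ≤ n := Nat.cast_nonneg n
    simp only [Tn]
    linarith
  have hTn1 : ∀ n, 1 ≤ Tn n := fun n => ht₀.trans (hTn n)
  have hTl : Tendsto Tn atTop atTop :=
    tendsto_atTop_add_const_right _ _ tendsto_natCast_atTop_atTop
  let f : ℕ → (Fin k → ℝ) → ENNReal := fun n α =>
    ENNReal.ofReal (‖∫ t in Ioc (Tn n) (2 * Tn n), GG k σ α t‖ ^ 2 / Tn n ^ 2)
  have hfm : ∀ n, Measurable (f n) := fun n => by
    have h1 := ((GG_meas k σ).stronglyMeasurable.integral_prod_right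
      (ν := volume.restrict (Ioc (Tn n) (2 * Tn n)))).measurable
    exact ENNReal.measurable_ofReal.comp ((h1.norm.pow_const 2).div_const _)
  have hlim : Tendsto (fun n => ∫⁻ α, f n α ∂(volume.restrict (cube k))) atTop (𝓝 0) := by
    have hmain := fun n => main_id k hσ hc (hTn1 n) (fun t ht => hcc1 t ((hTn n).trans ht))
    have h1 : ∀ n, ∫⁻ α, f n α ∂(volume.restrict (cube k)) =
        ENNReal.ofReal ((∫ α in cube k, ‖∫ t in Ioc (Tn n) (2 * Tn n), GG k σ α t‖ ^ 2) / Tn n ^ 2) := by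
      intro n
      rw [← integral_div, ofReal_integral_eq_lintegral_ofReal ((hmain n).1.div_const _)
        (Eventually.of_forall fun α => by positivity)]
    simp only [h1]
    have h2 : Tendsto (fun n => (∫ α in cube k, ‖∫ t in Ioc (Tn n) (2 * Tn n), GG k σ α t‖ ^ 2) / Tn n ^ 2)
        atTop (𝓝 0) := by
      have h3 := (hE4 σ k hσ hσ2).comp hTl
      have h4 := (Complex.continuous_re.tendsto _).comp (h3.sub_const 1)
      rw [sub_self, Complex.zero_re] at h4
      refine h4.congr (fun n => ?_)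
      have h5 := (hmain n).2
      have hT0 : (Tn n : ℂ) ≠ 0 := by
        have : Tn n ≠ 0 := by linarith [hTn1 n]
        exact_mod_cast this
      simp only [Function.comp_apply]
      have h6 : (1 / (Tn n : ℂ) ^ 2) * (∫ t in (Tn n)..(2 * Tn n), ∫ t' in (Tn n)..(2 * Tn n), SS σ t t' ^ k) - 1 =
          (((∫ α in cube k, ‖∫ t in Ioc (Tn n) (2 * Tn n), GG k σ α t‖ ^ 2) / Tn n ^ 2 : ℝ) : ℂ) := by
        rw [Complex.ofReal_div, h5]
        push_cast
        field_simp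
      rw [h6, Complex.ofReal_re]
    have h7 := ENNReal.tendsto_ofReal h2
    rwa [ENNReal.ofReal_zero] at h7
  have hfr := freqB (volume.restrict (cube k)) f hfm hlim (δ := ENNReal.ofReal (1 / 4)) (by
    rw [ENNReal.ofReal_pos]; norm_num)
  filter_upwards [hfr, ae_restrict_mem (cube_meas k)] with α hα hαc
  intro M
  obtain ⟨n, hn1, hn2⟩ := (hα.and_eventually (eventually_ge_atTop ⌈M⌉₊)).exists
  have hM : M ≤ Tn n := by
    have h1 : M ≤ ⌈M⌉₊ := Nat.le_ceil M
    have h2 : ((⌈M⌉₊ : ℕ) : ℝ) ≤ n := by exact_mod_cast hn2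
    simp only [Tn]
    linarith
  refine ⟨Tn n, hM, hTn1 n, ?_⟩
  have hT0 : 0 < Tn n := by linarith [hTn1 n]
  have h3 : ‖∫ t in Ioc (Tn n) (2 * Tn n), GG k σ α t‖ ^ 2 / Tn n ^ 2 < 1 / 4 :=
    (ENNReal.ofReal_lt_ofReal_iff (by norm_num)).1 hn1
  have h4 : ‖∫ t in Ioc (Tn n) (2 * Tn n), GG k σ α t‖ ≤ Tn n / 2 := by
    rw [div_lt_iff₀ (by positivity)] at h3
    refine abs_le_of_sq_le_sq' ?_ (by positivity) |>.2
    nlinarith
  have h5 := low_id k hσ hσ2 hc (hTn1 n) (fun t ht => hcc t ((hTn n).trans ht)) hαc h4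
  simp only [VV_def] at h5
  exact h5

end

end Pool.Agent.J4H23.GS
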