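import Pool.Agent.J4H38.GS.Stm3
import Pool.Agent.J4H13.GS.Sm

/-!
# Project GS (helper38, MP_bc6037_nt): (E5), general lemmas
-/

set_option autoImplicit false

open MeasureTheory Set Filter Polynomial Topology
open scoped ComplexConjugate

namespace Pool.Agent.J4H23.GS

open Pool.Agent.J4H38.GS Pool.Agent.J4H13.GS

noncomputable section

lemma intB {X : Type*} [MeasurableSpace X] {m : Measure X} {A : Set X} (hA : MeasurableSet A) (hAf : m A ≠ ⊤)
    {g : X → ℂ} (hg : Measurable g) {B : ℝ} (hB : ∀ x ∈ A, ‖g x‖ ≤ B) : IntegrableOn g A m :=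
  Measure.integrableOn_of_bounded hAf hg.aestronglyMeasurable
    ((ae_restrict_iff' hA).2 (Eventually.of_forall hB))

/-- Fubini for the square of an integral -/
lemma keyB {X : Type*} [MeasurableSpace X] (m : Measure X) [SigmaFinite m] {A : Set X} (hA : MeasurableSet A)
    (hAf : m A ≠ ⊤) {D : Set ℝ} (hD : MeasurableSet D) (hDf : volume D ≠ ⊤) {G : X → ℝ → ℂ}
    (hG : Measurable (Function.uncurry G)) {B : ℝ} (hB : ∀ x ∈ A, ∀ y ∈ D, ‖G x y‖ ≤ B) :
    IntegrableOn (fun x => ‖∫ y in D, G x y‖ ^ 2) A m ∧ ((∫ x in A, ‖∫ y in D, G x y‖ ^ 2 ∂m : ℝ) : ℂ) =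
      ∫ y in D, ∫ y' in D, (∫ x in A, G x y * conj (G x y') ∂m) := by
  have h1 : ∀ x, (((‖∫ y in D, G x y‖ ^ 2 : ℝ)) : ℂ) =
      ∫ p, G x p.1 * conj (G x p.2) ∂((volume.restrict D).prod (volume.restrict D)) := by
    intro x
    rw [integral_prod_mul (fun y => G x y) (fun y => conj (G x y)), integral_conj, Complex.mul_conj,
      Complex.normSq_eq_norm_sq]
  have hm1 : Measurable (fun q : X × (ℝ × ℝ) => G q.1 q.2.1) :=
    hG.comp (measurable_fst.prodMk (measurable_fst.comp measurable_snd))
  have hm2 : Measurable (fun q : X × (ℝ × ℝ) => G q.1 q.2.2) :=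
    hG.comp (measurable_fst.prodMk (measurable_snd.comp measurable_snd))
  have hmeas : Measurable (Function.uncurry (fun (x : X) (p : ℝ × ℝ) => G x p.1 * conj (G x p.2))) :=
    hm1.mul (Complex.continuous_conj.measurable.comp hm2)
  have hI : Integrable (Function.uncurry (fun (x : X) (p : ℝ × ℝ) => G x p.1 * conj (G x p.2)))
      ((m.restrict A).prod ((volume.restrict D).prod (volume.restrict D))) := by
    rw [Measure.prod_restrict, Measure.prod_restrict]
    refine intB (hA.prod (hD.prod hD)) ?_ hmeas (B := B * B) ?_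
    · rw [Measure.prod_prod, Measure.prod_prod]
      exact ENNReal.mul_ne_top hAf (ENNReal.mul_ne_top hDf hDf)
    · rintro ⟨x, y, y'⟩ ⟨hx, hy, hy'⟩
      simp only [Function.uncurry, norm_mul, RCLike.norm_conj]
      exact mul_le_mul (hB x hx y hy) (hB x hx y' hy') (norm_nonneg _) ((norm_nonneg _).trans (hB x hx y hy))
  refine ⟨?_, ?_⟩
  · have h2 := hI.integral_prod_left
    simp only [Function.uncurry] at h2
    simp only [← h1] at h2
    refine h2.re.congr (Eventually.of_forall fun x => ?_)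
    exact Complex.ofReal_re _
  rw [← integral_complex_ofReal]
  simp only [h1]
  rw [integral_integral_swap hI, integral_prod]
  exact hI.integral_prod_right

/-- the limit inferior of a sequence of nonnegative functions whose integrals tend to `0` -/
lemma freqB {X : Type*} [MeasurableSpace X] (m : Measure X) (f : ℕ → X → ENNReal) (hf : ∀ n, Measurable (f n))
    (h : Tendsto (fun n => ∫⁻ x, f n x ∂m) atTop (𝓝 0)) {δ : ENNReal} (hδ : 0 < δ) :
    ∀ᵐ x ∂m, ∃ᶠ n in atTop, f n x < δ := by
  have h1 : ∫⁻ x, liminf (fun n => f n x) atTop ∂m ≤ 0 := by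
    refine (lintegral_liminf_le hf).trans ?_
    rw [h.liminf_eq]
  have h2 : (fun x => liminf (fun n => f n x) atTop) =ᵐ[m] 0 := by
    rw [← lintegral_eq_zero_iff (Measurable.liminf hf)]
    exact le_antisymm h1 bot_le
  filter_upwards [h2] with x hx
  refine Filter.frequently_lt_of_liminf_lt (by isBoundedDefault) ?_
  rw [hx]
  exact hδ

end

end Pool.Agent.J4H23.GS
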