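import Pool.Agent.J4H23.GS.E5a
import Pool.Agent.J4H13.GS.Fu

/-!
# Project GS (helper38, MP_bc6037_nt): (E5), the kernel
-/

set_option autoImplicit false

open MeasureTheory Set Filter Polynomial Topology
open scoped ComplexConjugate

namespace Pool.Agent.J4H23.GS

open Pool.Agent.J4H38.GS Pool.Agent.J4H13.GS

noncomputable section

/-- the character -/
def ww (a : ℝ) : ℂ := Complex.exp (-((2 * Real.pi * ((-1 : ℤ) : ℝ) * a : ℝ) : ℂ) * Complex.I)

/-- its conjugate -/
def ee (a : ℝ) : ℂ := conj (ww a)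

lemma ww_norm (a : ℝ) : ‖ww a‖ = 1 := by
  unfold ww
  have e : (-((2 * Real.pi * ((-1 : ℤ) : ℝ) * a : ℝ) : ℂ) * Complex.I : ℂ) =
      ((-(2 * Real.pi * ((-1 : ℤ) : ℝ) * a) : ℝ) : ℂ) * Complex.I := by push_cast; ring
  rw [e, Complex.norm_exp_ofReal_mul_I]

lemma ww_meas : Measurable ww := by
  unfold ww
  fun_prop

lemma ee_norm (a : ℝ) : ‖ee a‖ = 1 := by
  unfold ee
  rw [RCLike.norm_conj, ww_norm]

lemma ee_meas : Measurable ee := Complex.continuous_conj.measurable.comp ww_meas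

/-- the factor -/
def VV (σ a t : ℝ) : ℂ := DD a (ln σ t) + 1 / (ln σ t - 1)

/-- the normalised factor -/
def WW (σ a t : ℝ) : ℂ := VV σ a t / cc (-1) (ln σ t)

lemma VV_def (σ a t : ℝ) : VV σ a t = DD a (ln σ t) + 1 / (ln σ t - 1) := rfl

lemma WW_def (σ a t : ℝ) : WW σ a t = VV σ a t / cc (-1) (ln σ t) := rfl

lemma ln_meas (σ : ℝ) : Measurable (ln σ) := by
  unfold ln
  fun_prop

lemma cc_eq (s : ℂ) : cc (-1) s = (1 - s * KK (-1) s) / (2 * Real.pi * ((-1 : ℤ) : ℂ) * Complex.I) := by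
  unfold cc
  rw [if_neg (by norm_num)]

lemma cc_meas (σ : ℝ) : Measurable (fun t : ℝ => cc (-1) (ln σ t)) := by
  have h1 : Measurable (Function.uncurry (fun (t y : ℝ) =>
      Complex.exp (-(2 * Real.pi * ((-1 : ℤ) : ℝ) * y : ℝ) * Complex.I) * (y : ℂ) ^ (-(ln σ t) - 1))) := by
    refine Measurable.mul (by fun_prop) ?_
    refine Measurable.pow (Complex.measurable_ofReal.comp measurable_snd) ?_
    exact (((ln_meas σ).comp measurable_fst).neg).sub_const 1
  have h2 := (h1.stronglyMeasurable.integral_prod_right (ν := volume.restrict (Ioi (1 : ℝ)))).measurable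
  simp only [cc_eq]
  exact (measurable_const.sub ((ln_meas σ).mul h2)).div_const _

lemma VV_meas (σ : ℝ) : Measurable (Function.uncurry (VV σ)) := by
  have h1 : Measurable (fun p : ℝ × ℝ => DD p.1 (ln σ p.2)) := DD_meas2 σ
  have h2 : Measurable (fun p : ℝ × ℝ => ln σ p.2) := (ln_meas σ).comp measurable_snd
  exact h1.add (measurable_const.div (h2.sub_const 1))

lemma WW_meas (σ : ℝ) : Measurable (Function.uncurry (WW σ)) := by
  have h3 : Measurable (fun p : ℝ × ℝ => cc (-1) (ln σ p.2)) := (cc_meas σ).comp measurable_snd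
  exact (VV_meas σ).div h3

lemma VV_le {σ T a t : ℝ} (hσ : 0 < σ) (hT : 1 ≤ T) (ha : a ∈ Ico (0 : ℝ) 1) (ht : t ∈ Ioc T (2 * T)) :
    ‖VV σ a t‖ ≤ (σ + 2 * T) / σ + 1 := by
  unfold VV
  have e : (ln σ t).re = σ := by simp [ln]
  refine (norm_add_le _ _).trans (add_le_add ?_ ?_)
  · refine (DD_le ha.1 ha.2.le (by rw [e]; exact hσ)).trans ?_
    rw [e]
    refine div_le_div_of_nonneg_right ?_ hσ.le
    unfold ln
    refine (norm_add_le _ _).trans ?_
    rw [norm_mul, Complex.norm_I, mul_one, Complex.norm_real, Complex.norm_real, Real.norm_eq_abs,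
      Real.norm_eq_abs, abs_of_pos hσ, abs_of_pos (by linarith [ht.1])]
    linarith [ht.2]
  · rw [norm_div, norm_one]
    have h1 : |t| ≤ ‖ln σ t - 1‖ := by
      have := Complex.abs_im_le_norm (ln σ t - 1)
      simpa [ln] using this
    have h2 : 1 ≤ |t| := by
      rw [abs_of_pos (by linarith [ht.1])]
      linarith [ht.1]
    rw [div_le_one (by linarith)]
    linarith

lemma WW_le {σ c T a t : ℝ} (hσ : 0 < σ) (hc : 0 < c) (hT : 1 ≤ T) (ha : a ∈ Ico (0 : ℝ) 1)
    (ht : t ∈ Ioc T (2 * T)) (hcc : c ≤ ‖cc (-1) (ln σ t)‖) : ‖WW σ a t‖ ≤ ((σ + 2 * T) / σ + 1) / c := by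
  unfold WW
  rw [norm_div]
  exact div_le_div₀ (by positivity) (VV_le hσ hT ha ht) hc hcc

lemma icoI (f : ℝ → ℂ) : ∫ a in Ico (0 : ℝ) 1, f a = ∫ a in (0 : ℝ)..1, f a := by
  rw [intervalIntegral.integral_of_le zero_le_one, integral_Ico_eq_integral_Ioc]

lemma WW_WW (σ t t' : ℝ) : ∫ a in Ico (0 : ℝ) 1, WW σ a t * conj (WW σ a t') = SS σ t t' := by
  unfold SS
  rw [← icoI, ← integral_div]
  refine integral_congr_ae (Eventually.of_forall ?_)
  intro a
  simp only [WW, VV, map_div₀]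
  rw [div_mul_div_comm]

lemma WW_ee {σ t : ℝ} (hσ : 0 < σ) (hc : cc (-1) (ln σ t) ≠ 0) :
    ∫ a in Ico (0 : ℝ) 1, WW σ a t * conj (ee a) = 1 := by
  have e : (ln σ t).re = σ := by simp [ln]
  have hs : 0 < (ln σ t).re := by rw [e]; exact hσ
  have h1 : ∫ a in Ico (0 : ℝ) 1, ww a * DD a (ln σ t) = cc (-1) (ln σ t) := by
    rw [icoI, cc_eq]
    exact coef_ne (ln σ t) hs (-1) (by norm_num)
  have h2 : ∫ a in Ico (0 : ℝ) 1, ww a = 0 := by
    rw [icoI]
    have := exp_int (-1) (by norm_num) 0 1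
    unfold ww
    rw [this, div_eq_zero_iff]
    left
    have e0 : (-((2 * Real.pi * ((-1 : ℤ) : ℝ) * 0 : ℝ) : ℂ) * Complex.I : ℂ) = 0 := by simp
    have e1 : (-((2 * Real.pi * ((-1 : ℤ) : ℝ) * 1 : ℝ) : ℂ) * Complex.I : ℂ) = 2 * Real.pi * Complex.I := by
      push_cast; ring
    rw [e0, e1, Complex.exp_zero, Complex.exp_two_pi_mul_I, sub_self]
  have i1 : IntegrableOn (fun a => ww a * DD a (ln σ t)) (Ico (0 : ℝ) 1) volume := by
    refine intB measurableSet_Ico (by simp) (ww_meas.mul (DD_meas _).measurable)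
      (B := ‖ln σ t‖ / (ln σ t).re) ?_
    intro a ha
    rw [norm_mul, ww_norm, one_mul]
    exact DD_le ha.1 ha.2.le hs
  have i2 : IntegrableOn ww (Ico (0 : ℝ) 1) volume :=
    intB measurableSet_Ico (by simp) ww_meas (B := 1) (fun a _ => (ww_norm a).le)
  have e3 : ∀ a, WW σ a t * conj (ee a) =
      (ww a * DD a (ln σ t) + ww a * (1 / (ln σ t - 1))) / cc (-1) (ln σ t) := by
    intro a
    unfold WW VV ee
    rw [Complex.conj_conj]
    ring
  simp only [e3]
  rw [integral_div, integral_add i1 (i2.mul_const _), integral_mul_const, h1, h2, zero_mul, add_zero,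
    div_self hc]

attribute [local irreducible] WW ee

lemma cube_res (k : ℕ) : (volume.restrict (cube k) : Measure (Fin k → ℝ)) =
    Measure.pi (fun _ => volume.restrict (Ico (0 : ℝ) 1)) := by
  unfold cube
  rw [volume_pi, Measure.restrict_pi_pi]

lemma cubeI (k : ℕ) (f : ℝ → ℂ) : ∫ α in cube k, ∏ i, f (α i) = (∫ a in Ico (0 : ℝ) 1, f a) ^ k := by
  rw [cube_res, integral_fintype_prod_eq_pow, Fintype.card_fin]

lemma prodB {k : ℕ} {f : Fin k → ℂ} {B : ℝ} (h : ∀ i, ‖f i‖ ≤ B) : ‖∏ i, f i‖ ≤ B ^ k := by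
  rw [norm_prod]
  calc ∏ i, ‖f i‖ ≤ ∏ _i : Fin k, B := Finset.prod_le_prod (fun i _ => norm_nonneg _) (fun i _ => h i)
    _ = B ^ k := by simp

lemma int4 {X : Type*} [MeasurableSpace X] {m : Measure X} {f1 f2 f3 f4 : X → ℂ} (i1 : Integrable f1 m)
    (i2 : Integrable f2 m) (i3 : Integrable f3 m) (i4 : Integrable f4 m) :
    ∫ x, (((f1 x - f2 x) - f3 x) + f4 x) ∂m = ((∫ x, f1 x ∂m - ∫ x, f2 x ∂m) - ∫ x, f3 x ∂m) + ∫ x, f4 x ∂m := by
  have h12 : Integrable (fun x => f1 x - f2 x) m := i1.sub i2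
  have h123 : Integrable (fun x => f1 x - f2 x - f3 x) m := h12.sub i3
  rw [integral_add h123 i4, integral_sub h12 i3, integral_sub i1 i2]

lemma cube_meas (k : ℕ) : MeasurableSet (cube k) :=
  MeasurableSet.univ_pi (fun _ => measurableSet_Ico)

lemma cube_fin (k : ℕ) : volume (cube k) ≠ ⊤ := by
  unfold cube
  rw [volume_pi, Measure.pi_pi]
  simp

lemma cubeInt (k : ℕ) {f : ℝ → ℂ} (hf : Measurable f) {B : ℝ} (hB : ∀ a ∈ Ico (0 : ℝ) 1, ‖f a‖ ≤ B) :
    IntegrableOn (fun α : Fin k → ℝ => ∏ i, f (α i)) (cube k) volume := by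
  refine intB (cube_meas k) (cube_fin k) (Finset.measurable_prod _ (fun i _ => hf.comp (measurable_pi_apply i)))
    (B := B ^ k) ?_
  intro α hα
  exact prodB (fun i => hB _ (hα i (mem_univ i)))

/-- the difference -/
def GG (k : ℕ) (σ : ℝ) (α : Fin k → ℝ) (t : ℝ) : ℂ := (∏ i, WW σ (α i) t) - ∏ i, ee (α i)

lemma WWp_meas (k : ℕ) (σ : ℝ) : Measurable (fun p : (Fin k → ℝ) × ℝ => ∏ i, WW σ (p.1 i) p.2) := by
  refine Finset.measurable_prod _ (fun i _ => ?_)
  have h4 : Measurable (fun p : (Fin k → ℝ) × ℝ => (p.1 i, p.2)) :=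
    ((measurable_pi_apply i).comp measurable_fst).prodMk measurable_snd
  have h5 := (WW_meas σ).comp h4
  simpa only [Function.comp_def, Function.uncurry] using h5

lemma GG_meas (k : ℕ) (σ : ℝ) : Measurable (Function.uncurry (GG k σ)) := by
  refine (WWp_meas k σ).sub ?_
  exact Finset.measurable_prod _ (fun i _ => ee_meas.comp ((measurable_pi_apply i).comp measurable_fst))

lemma GG_inner (k : ℕ) {σ c T t t' : ℝ} (hσ : 0 < σ) (hc : 0 < c) (hT : 1 ≤ T)
    (hcc : ∀ t, T ≤ t → c ≤ ‖cc (-1) (ln σ t)‖) (ht : t ∈ Ioc T (2 * T)) (ht' : t' ∈ Ioc T (2 * T)) :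
    ∫ α in cube k, GG k σ α t * conj (GG k σ α t') = SS σ t t' ^ k - 1 := by
  have hn : ∀ t, T ≤ t → cc (-1) (ln σ t) ≠ 0 := fun t ht => by
    have h := hcc t ht
    intro h0
    rw [h0, norm_zero] at h
    linarith
  have hWm : ∀ t, Measurable (fun a => WW σ a t) := fun t => by
    have h4 : Measurable (fun a : ℝ => (a, t)) := measurable_id.prodMk measurable_const
    have h5 := (WW_meas σ).comp h4
    simpa only [Function.comp_def, Function.uncurry] using h5
  have hWc : ∀ t, Measurable (fun a => conj (WW σ a t)) := fun t =>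
    Complex.continuous_conj.measurable.comp (hWm t)
  have hec : Measurable (fun a => conj (ee a)) := Complex.continuous_conj.measurable.comp ee_meas
  have hW : ∀ t ∈ Ioc T (2 * T), ∀ a ∈ Ico (0 : ℝ) 1, ‖WW σ a t‖ ≤ ((σ + 2 * T) / σ + 1) / c :=
    fun t ht a ha => WW_le hσ hc hT ha ht (hcc t ht.1.le)
  have hB0 : 0 ≤ ((σ + 2 * T) / σ + 1) / c := by positivity
  have i1 := cubeInt k (f := fun a => WW σ a t * conj (WW σ a t')) ((hWm t).mul (hWc t'))
    (B := (((σ + 2 * T) / σ + 1) / c) * (((σ + 2 * T) / σ + 1) / c)) (fun a ha => by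
      rw [norm_mul, RCLike.norm_conj]
      exact mul_le_mul (hW t ht a ha) (hW t' ht' a ha) (norm_nonneg _) hB0)
  have i2 := cubeInt k (f := fun a => WW σ a t * conj (ee a)) ((hWm t).mul hec) (B := ((σ + 2 * T) / σ + 1) / c) (fun a ha => by
      rw [norm_mul, RCLike.norm_conj, ee_norm, mul_one]
      exact hW t ht a ha)
  have i3 := cubeInt k (f := fun a => ee a * conj (WW σ a t')) (ee_meas.mul (hWc t')) (B := ((σ + 2 * T) / σ + 1) / c) (fun a ha => by
      rw [norm_mul, RCLike.norm_conj, ee_norm, one_mul]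
      exact hW t' ht' a ha)
  have i4 := cubeInt k (f := fun a => ee a * conj (ee a)) (ee_meas.mul hec) (B := 1) (fun a _ => by
      rw [norm_mul, RCLike.norm_conj, ee_norm, mul_one])
  have c1 := cubeI k (fun a => WW σ a t * conj (WW σ a t'))
  have c2 := cubeI k (fun a => WW σ a t * conj (ee a))
  have c3 := cubeI k (fun a => ee a * conj (WW σ a t'))
  have c4 := cubeI k (fun a => ee a * conj (ee a))
  rw [WW_WW] at c1
  rw [WW_ee hσ (hn t ht.1.le), one_pow] at c2
  have d3 : ∫ a in Ico (0 : ℝ) 1, ee a * conj (WW σ a t') = 1 := by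
    have h := congrArg conj (WW_ee hσ (hn t' ht'.1.le))
    rw [← integral_conj, map_one] at h
    rw [← h]
    refine integral_congr_ae (Eventually.of_forall ?_)
    intro a
    simp only [map_mul, Complex.conj_conj]
    ring
  rw [d3, one_pow] at c3
  have d4 : ∫ a in Ico (0 : ℝ) 1, ee a * conj (ee a) = 1 := by
    have e : ∀ a, ee a * conj (ee a) = 1 := by
      intro a
      rw [Complex.mul_conj, Complex.normSq_eq_norm_sq, ee_norm]
      simp
    simp only [e]
    simp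
  rw [d4, one_pow] at c4
  have ex : ∀ α : Fin k → ℝ, GG k σ α t * conj (GG k σ α t') =
      (((∏ i, (WW σ (α i) t * conj (WW σ (α i) t'))) - ∏ i, (WW σ (α i) t * conj (ee (α i)))) -
        ∏ i, (ee (α i) * conj (WW σ (α i) t'))) + ∏ i, (ee (α i) * conj (ee (α i))) := by
    intro α
    unfold GG
    simp only [Finset.prod_mul_distrib, map_sub, map_prod]
    ring
  simp only [ex]
  rw [int4 i1 i2 i3 i4, c1, c2, c3, c4]
  ring

end

end Pool.Agent.J4H23.GS
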